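import Mathlib

/-! Block colourings beating the random rate of monochromatic k-term progressions. -/

open Finset
open scoped Classical

namespace Pool.Agent.Results.MP_6bff71_co.Beat

/-- Number of monochromatic k-term progressions a, a+d, ..., a+(k-1)d (a ≥ 1, d ≥ 1) inside
[n] = {1,...,n} under the colouring χ. -/
noncomputable def M {r : ℕ} (k n : ℕ) (χ : ℕ → Fin r) : ℕ :=
  ((Icc 1 n ×ˢ Icc 1 n).filter
    (fun p => p.1 + (k - 1) * p.2 ≤ n ∧ ∀ i, i < k → χ (p.1 + i * p.2) = χ p.1)).card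

noncomputable def ind (P : Prop) : ℝ := if P then 1 else 0

lemma ind_nonneg (P : Prop) : 0 ≤ ind P := by unfold ind; split_ifs <;> norm_num
lemma ind_le (P : Prop) : ind P ≤ 1 := by unfold ind; split_ifs <;> norm_num

section scale
variable {r : ℕ} (s B : ℕ) (ψ : ℕ → Fin r)

def P (n a d : ℕ) : Prop :=
  1 ≤ d ∧ a + s * d < n ∧ ∀ i, i ≤ s → ψ (B * (a + i * d) / n) = ψ (B * a / n)

noncomputable def G (n : ℕ) : ℝ := ∑ a ∈ range n, ∑ d ∈ range n, ind (P s B ψ n a d)

def Bad (n a d : ℕ) : Prop :=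
  d = 0 ∨ ∃ i, i ≤ s ∧ B * (a + i * d) / n ≠ B * (a + i * d + (s + 1)) / n

lemma sum_div (q n : ℕ) (hq : 0 < q) (f : ℕ → ℝ) :
    ∑ a ∈ range (q * n), f (a / q) = q * ∑ a ∈ range n, f a := by
  induction n with
  | zero => simp
  | succ n ih =>
    rw [Nat.mul_succ, sum_range_add, ih, sum_range_succ, mul_add]
    congr 1
    rw [sum_congr rfl (g := fun _ => f n)]
    · simp
    · intro x hx
      rw [mem_range] at hx
      rw [Nat.mul_add_div hq, Nat.div_eq_of_lt hx, add_zero]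

lemma blk {q n a d : ℕ} (hq : 0 < q) (h : ¬ Bad s B n (a / q) (d / q)) {i : ℕ} (hi : i ≤ s) :
    B * (a + i * d) / (q * n) = B * (a / q + i * (d / q)) / n := by
  have h1 : B * (a / q + i * (d / q)) / n = B * (a / q + i * (d / q) + (s + 1)) / n := by
    by_contra hc; exact h (Or.inr ⟨i, hi, hc⟩)
  have ha := Nat.div_add_mod a q
  have hd := Nat.div_add_mod d q
  have ha' := Nat.mod_lt a hq
  have hd' := Nat.mod_lt d hq
  have e : a + i * d = q * (a / q + i * (d / q)) + (a % q + i * (d % q)) := by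
    conv_lhs => rw [← ha, ← hd]
    ring
  have e2 : a % q + i * (d % q) ≤ q * (s + 1) := by
    have := Nat.mul_le_mul hi hd'.le
    nlinarith
  apply le_antisymm
  · rw [h1, ← Nat.mul_div_mul_left (B * (a / q + i * (d / q) + (s + 1))) n hq]
    apply Nat.div_le_div_right
    rw [e, mul_left_comm q B]
    apply Nat.mul_le_mul_left
    rw [mul_add q _ (s + 1)]; omega
  · rw [← Nat.mul_div_mul_left (B * (a / q + i * (d / q))) n hq]
    apply Nat.div_le_div_right
    rw [e, mul_left_comm q B]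
    apply Nat.mul_le_mul_left
    omega

lemma lt_iff_blk (hB : 0 < B) {n : ℕ} (hn : 0 < n) (x : ℕ) : x < n ↔ B * x / n < B := by
  rw [Nat.div_lt_iff_lt_mul hn, Nat.mul_lt_mul_left hB]

lemma P_iff (hB : 0 < B) {q n a d : ℕ} (hq : 0 < q) (hn : 0 < n)
    (h : ¬ Bad s B n (a / q) (d / q)) :
    P s B ψ (q * n) a d ↔ P s B ψ n (a / q) (d / q) := by
  have h0 : d / q ≠ 0 := fun hc => h (Or.inl hc)
  have h1 : 1 ≤ d := by
    by_contra hc
    have : d = 0 := by omega
    simp [this] at h0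
  have hz := blk s B hq h (Nat.zero_le s)
  simp only [zero_mul, add_zero] at hz
  unfold P
  rw [lt_iff_blk B hB (Nat.mul_pos hq hn), lt_iff_blk B hB hn, blk s B hq h le_rfl, hz]
  refine and_congr ⟨fun _ => Nat.pos_of_ne_zero h0, fun _ => h1⟩ (and_congr Iff.rfl ?_)
  exact forall_congr' fun i => forall_congr' fun hi => by rw [blk s B hq h hi]

lemma jumps {n : ℕ} (hn : 0 < n) (u : ℕ) :
    ∑ a ∈ range n, ind (B * (a + u) / n ≠ B * (a + u + 1) / n) ≤ B := by
  have h : ∀ m, ∑ a ∈ range m, ind (B * (a + u) / n ≠ B * (a + u + 1) / n) ≤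
      ((B * (m + u) / n : ℕ) : ℝ) - ((B * u / n : ℕ) : ℝ) := by
    intro m
    induction m with
    | zero => simp
    | succ m ih =>
      rw [sum_range_succ]
      have h1 : B * (m + u) / n ≤ B * (m + u + 1) / n :=
        Nat.div_le_div_right (Nat.mul_le_mul_left _ (by omega))
      rw [show m + 1 + u = m + u + 1 by ring]
      unfold ind at *
      split_ifs with hc
      · have : B * (m + u) / n + 1 ≤ B * (m + u + 1) / n := by omega
        have : ((B * (m + u) / n : ℕ) : ℝ) + 1 ≤ ((B * (m + u + 1) / n : ℕ) : ℝ) := by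
          exact_mod_cast this
        linarith
      · have : ((B * (m + u) / n : ℕ) : ℝ) ≤ ((B * (m + u + 1) / n : ℕ) : ℝ) := by
          exact_mod_cast h1
        linarith
  have := h n
  rw [show B * (n + u) = B * u + n * B by ring, Nat.add_mul_div_left _ _ hn] at this
  push_cast at this
  linarith

lemma ind_bad (n a d : ℕ) : ind (Bad s B n a d) ≤ ind (d = 0) + ∑ i ∈ range (s + 1),
    ∑ e ∈ range (s + 1), ind (B * (a + (i * d + e)) / n ≠ B * (a + (i * d + e) + 1) / n) := by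
  have hs : 0 ≤ ∑ i ∈ range (s + 1),
      ∑ e ∈ range (s + 1), ind (B * (a + (i * d + e)) / n ≠ B * (a + (i * d + e) + 1) / n) :=
    sum_nonneg fun _ _ => sum_nonneg fun _ _ => ind_nonneg _
  by_cases h : Bad s B n a d
  · rcases h with h | ⟨i, hi, h⟩
    · have : ind (d = 0) = 1 := if_pos h
      linarith [ind_le (Bad s B n a d)]
    · have : ∃ e, e < s + 1 ∧ B * (a + (i * d + e)) / n ≠ B * (a + (i * d + e) + 1) / n := by
        by_contra hc
        push Not at hc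
        have : ∀ e, e ≤ s + 1 → B * (a + i * d) / n = B * (a + i * d + e) / n := by
          intro e
          induction e with
          | zero => simp
          | succ e ih =>
            intro he
            rw [ih (by omega), add_assoc, hc e (by omega)]
            congr 2; ring
        exact h (this _ le_rfl)
      obtain ⟨e, he, h2⟩ := this
      have h3 : (1 : ℝ) ≤ ∑ i ∈ range (s + 1),
          ∑ e ∈ range (s + 1), ind (B * (a + (i * d + e)) / n ≠ B * (a + (i * d + e) + 1) / n) := by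
        refine le_trans ?_ (single_le_sum (f := fun i => ∑ e ∈ range (s + 1),
          ind (B * (a + (i * d + e)) / n ≠ B * (a + (i * d + e) + 1) / n))
          (fun _ _ => sum_nonneg fun _ _ => ind_nonneg _) (mem_range.2 (Nat.lt_succ_of_le hi)))
        refine le_trans ?_ (single_le_sum (f := fun e =>
          ind (B * (a + (i * d + e)) / n ≠ B * (a + (i * d + e) + 1) / n))
          (fun _ _ => ind_nonneg _) (mem_range.2 he))
        exact (if_pos h2).ge
      linarith [ind_le (Bad s B n a d), ind_nonneg (d = 0)]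
  · have : ind (Bad s B n a d) = 0 := if_neg h
    linarith [ind_nonneg (d = 0)]

noncomputable def C0 : ℝ := 1 + (s + 1) ^ 2 * B

lemma bad_sum {n : ℕ} (hn : 0 < n) :
    ∑ a ∈ range n, ∑ d ∈ range n, ind (Bad s B n a d) ≤ C0 s B * n := by
  refine (sum_le_sum fun a _ => sum_le_sum fun d _ => ind_bad s B n a d).trans ?_
  simp only [sum_add_distrib]
  have h1 : ∑ _a ∈ range n, ∑ d ∈ range n, ind (d = 0) ≤ n := by
    have : ∑ d ∈ range n, ind (d = 0) = 1 := by
      rw [sum_eq_single 0 (fun b _ hb => by simp [ind, hb]) (fun h => absurd (mem_range.2 hn) h)]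
      exact if_pos rfl
    simp [this]
  have h2 : ∑ a ∈ range n, ∑ d ∈ range n, ∑ i ∈ range (s + 1), ∑ e ∈ range (s + 1),
      ind (B * (a + (i * d + e)) / n ≠ B * (a + (i * d + e) + 1) / n) ≤
      ∑ _d ∈ range n, ∑ _i ∈ range (s + 1), ∑ _e ∈ range (s + 1), (B : ℝ) := by
    rw [sum_comm]
    refine sum_le_sum fun d _ => ?_
    rw [sum_comm]
    refine sum_le_sum fun i _ => ?_
    rw [sum_comm]
    exact sum_le_sum fun e _ => jumps B hn _
  simp only [sum_const, card_range, nsmul_eq_mul] at h2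
  push_cast at h2
  unfold C0
  nlinarith

lemma G_scale (hB : 0 < B) {q n : ℕ} (hq : 0 < q) (hn : 0 < n) :
    |G s B ψ (q * n) - q ^ 2 * G s B ψ n| ≤ q ^ 2 * (C0 s B * n) := by
  have key : ∀ F : ℕ → ℕ → ℝ, ∑ a ∈ range (q * n), ∑ d ∈ range (q * n), F (a / q) (d / q) =
      q ^ 2 * ∑ a ∈ range n, ∑ d ∈ range n, F a d := by
    intro F
    rw [sum_div q n hq (fun a => ∑ d ∈ range (q * n), F a (d / q))]
    simp only [sum_div q n hq (F _), ← mul_sum]
    ring
  unfold G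
  rw [← key, ← sum_sub_distrib]
  refine le_trans ?_ (mul_le_mul_of_nonneg_left (bad_sum s B hn) (by positivity))
  rw [← key]
  refine (abs_sum_le_sum_abs _ _).trans (sum_le_sum fun a _ => ?_)
  rw [← sum_sub_distrib]
  refine (abs_sum_le_sum_abs _ _).trans (sum_le_sum fun d _ => ?_)
  by_cases h : Bad s B n (a / q) (d / q)
  · have : ind (Bad s B n (a / q) (d / q)) = 1 := if_pos h
    rw [this, abs_le]
    constructor <;> linarith [ind_le (P s B ψ (q * n) a d), ind_nonneg (P s B ψ (q * n) a d),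
      ind_le (P s B ψ n (a / q) (d / q)), ind_nonneg (P s B ψ n (a / q) (d / q))]
  · rw [P_iff s B ψ hB hq hn h]; simp [ind_nonneg]

lemma G_lim (hB : 0 < B) : ∃ δ : ℝ, ∀ n : ℕ, 0 < n → |G s B ψ n - δ * n ^ 2| ≤ C0 s B * n := by
  have h1 : ∀ q n : ℕ, 0 < q → 0 < n →
      |G s B ψ (q * n) / ((q : ℝ) * n) ^ 2 - G s B ψ n / n ^ 2| ≤ C0 s B / n := by
    intro q n hq hn
    have := G_scale s B ψ hB hq hn
    have hq' : (0 : ℝ) < q := by exact_mod_cast hq
    have hn' : (0 : ℝ) < n := by exact_mod_cast hn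
    have e : G s B ψ (q * n) / ((q : ℝ) * n) ^ 2 - G s B ψ n / n ^ 2 =
        (G s B ψ (q * n) - q ^ 2 * G s B ψ n) / ((q : ℝ) * n) ^ 2 := by field_simp
    rw [e, abs_div, abs_of_pos (by positivity : 0 < ((q : ℝ) * n) ^ 2), div_le_iff₀ (by positivity)]
    refine this.trans (le_of_eq ?_)
    field_simp
  have h2 : ∀ m n : ℕ, 0 < m → 0 < n →
      G s B ψ m / m ^ 2 - C0 s B / m ≤ G s B ψ n / n ^ 2 + C0 s B / n := by
    intro m n hm hn
    have a := abs_le.1 (h1 m n hm hn)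
    have b := abs_le.1 (h1 n m hn hm)
    rw [mul_comm n m, mul_comm (n : ℝ) m] at b
    linarith [a.1, a.2, b.1, b.2]
  let S : Set ℝ := {x | ∃ m : ℕ, 0 < m ∧ x = G s B ψ m / m ^ 2 - C0 s B / m}
  have hne : S.Nonempty := ⟨_, 1, one_pos, rfl⟩
  have hbd : ∀ n : ℕ, 0 < n → ∀ x ∈ S, x ≤ G s B ψ n / n ^ 2 + C0 s B / n := by
    rintro n hn x ⟨m, hm, rfl⟩; exact h2 m n hm hn
  refine ⟨sSup S, fun n hn => ?_⟩
  have a := csSup_le hne (hbd n hn)
  have b := le_csSup ⟨_, hbd 1 one_pos⟩ (⟨n, hn, rfl⟩ : _ ∈ S)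
  have hn' : (0 : ℝ) < n := by exact_mod_cast hn
  have e1 : G s B ψ n = G s B ψ n / n ^ 2 * n ^ 2 := by field_simp
  have e2 : C0 s B * n = C0 s B / n * n ^ 2 := by field_simp
  rw [e1, e2, ← sub_mul, abs_mul, abs_of_pos (by positivity : (0 : ℝ) < n ^ 2)]
  gcongr
  rw [abs_le]; constructor <;> linarith

lemma M_eq (hs : 1 ≤ s) (n : ℕ) :
    (M (s + 1) n (fun x => ψ (B * (x - 1) / n)) : ℝ) = G s B ψ n := by
  unfold G M ind
  rw [← sum_product', sum_boole]
  congr 1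
  refine card_nbij' (fun p => (p.1 - 1, p.2)) (fun p => (p.1 + 1, p.2)) ?_ ?_ ?_ ?_
  · rintro ⟨a, d⟩ hp
    simp only [coe_filter, mem_product, mem_Icc, Set.mem_ofPred_eq, mem_range, P,
      add_tsub_cancel_right] at hp ⊢
    obtain ⟨⟨⟨h1, h2⟩, h3, h4⟩, h5, h6⟩ := hp
    have := Nat.mul_le_mul_right d hs
    refine ⟨⟨by omega, by omega⟩, h3, by omega, fun i hi => ?_⟩
    rw [← h6 i (by omega)]
    congr 3; omega
  · rintro ⟨a, d⟩ hp
    simp only [coe_filter, mem_product, mem_Icc, Set.mem_ofPred_eq, mem_range, P,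
      add_tsub_cancel_right] at hp ⊢
    obtain ⟨⟨h1, h2⟩, h3, h5, h6⟩ := hp
    refine ⟨⟨⟨by omega, by omega⟩, h3, by omega⟩, by omega, fun i hi => ?_⟩
    rw [← h6 i (by omega)]
    congr 3; omega
  · rintro ⟨a, d⟩ hp
    simp only [coe_filter, mem_product, mem_Icc, Set.mem_ofPred_eq] at hp
    ext <;> simp; omega
  · rintro ⟨a, d⟩ _
    simp

end scale

/-! second-order expansion -/

noncomputable def e2 (u : ℕ → ℝ) (k : ℕ) : ℝ := ∑ j ∈ range k, ∑ i ∈ range j, u i * u j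

def KK : ℕ → ℝ
  | 0 => 1
  | k + 1 => 2 * KK k + k ^ 2

lemma KK_ge (k : ℕ) : 1 ≤ KK k := by
  induction k with
  | zero => simp [KK]
  | succ k ih => simp only [KK]; nlinarith [sq_nonneg (k : ℝ)]

lemma expand {u : ℕ → ℝ} {ε : ℝ} (h0 : 0 ≤ ε) (h1 : ε ≤ 1) (hu : ∀ i, |u i| ≤ ε) (k : ℕ) :
    |∑ i ∈ range k, u i| ≤ k * ε ∧ |e2 u k| ≤ k ^ 2 * ε ^ 2 ∧
      |∏ i ∈ range k, (1 + u i) - (1 + ∑ i ∈ range k, u i + e2 u k)| ≤ KK k * ε ^ 3 := by
  induction k with
  | zero => simp [e2, KK]; positivity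
  | succ k ih =>
    obtain ⟨a, b, c⟩ := ih
    have he : e2 u (k + 1) = e2 u k + (∑ i ∈ range k, u i) * u k := by
      unfold e2; rw [sum_range_succ, sum_mul]
    have hk : (0 : ℝ) ≤ k := Nat.cast_nonneg k
    refine ⟨?_, ?_, ?_⟩
    · rw [sum_range_succ]; push_cast
      linarith [abs_add_le (∑ i ∈ range k, u i) (u k), hu k]
    · rw [he]; push_cast
      have := abs_add_le (e2 u k) ((∑ i ∈ range k, u i) * u k)
      rw [abs_mul] at this
      have h2 := mul_le_mul a (hu k) (abs_nonneg _) (by positivity)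
      nlinarith [sq_nonneg ε, mul_nonneg hk (sq_nonneg ε)]
    · rw [he, prod_range_succ, sum_range_succ]
      set R := ∏ i ∈ range k, (1 + u i) - (1 + ∑ i ∈ range k, u i + e2 u k) with hR
      have e : (∏ i ∈ range k, (1 + u i)) * (1 + u k) - (1 + (∑ i ∈ range k, u i + u k) +
          (e2 u k + (∑ i ∈ range k, u i) * u k)) = R + R * u k + e2 u k * u k := by
        rw [hR]; ring
      rw [e]
      have h2 := mul_le_mul c ((hu k).trans h1) (abs_nonneg _)
        (mul_nonneg (by linarith [KK_ge k]) (by positivity))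
      have h3 := mul_le_mul b (hu k) (abs_nonneg _) (by positivity)
      have h4 := abs_add_three R (R * u k) (e2 u k * u k)
      rw [abs_mul, abs_mul] at h4
      simp only [KK]
      nlinarith

lemma pm {u : ℕ → ℝ} {ε : ℝ} (h0 : 0 ≤ ε) (h1 : ε ≤ 1) (hu : ∀ i, |u i| ≤ ε) (k : ℕ) :
    ∏ i ∈ range k, (1 + u i) + ∏ i ∈ range k, (1 + -u i) ≤ 2 + 2 * e2 u k + 2 * (KK k * ε ^ 3) := by
  have a := abs_le.1 (expand h0 h1 hu k).2.2
  have b := abs_le.1 (expand (u := fun i => -u i) h0 h1 (fun i => by simpa using hu i) k).2.2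
  have : e2 (fun i => -u i) k = e2 u k := by simp [e2]
  rw [this, sum_neg_distrib] at b
  linarith [a.2, b.2]

/-! averaging over block colourings -/

def sg {ρ : ℕ} (c : Fin (ρ + 2)) : ℝ := if c = 0 then 1 else if c = 1 then -1 else 0

noncomputable def pr {ρ : ℕ} (v : ℕ → ℝ) (b : ℕ) (c : Fin (ρ + 2)) : ℝ := (1 + v b * sg c) / (ρ + 2)

lemma pr_nonneg {ρ : ℕ} {v : ℕ → ℝ} (hv : ∀ b, |v b| ≤ 1) (b : ℕ) (c : Fin (ρ + 2)) :
    0 ≤ pr v b c := by
  have := abs_le.1 (hv b)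
  unfold pr sg
  apply div_nonneg _ (by positivity)
  split_ifs <;> linarith

lemma sg_ss {ρ : ℕ} (c : Fin ρ) : sg c.succ.succ = 0 := by
  unfold sg
  rw [if_neg (Fin.succ_ne_zero _), if_neg (Fin.succ_succ_ne_one _)]

lemma pr_sum {ρ : ℕ} (v : ℕ → ℝ) (b : ℕ) : ∑ c : Fin (ρ + 2), pr v b c = 1 := by
  rw [Fin.sum_univ_succ, Fin.sum_univ_succ]
  simp only [pr, sg_ss]
  simp [sg]
  field_simp
  ring

lemma pr_prod {ρ : ℕ} (v : ℕ → ℝ) (b : ℕ → ℕ) (k : ℕ) :
    ∑ c : Fin (ρ + 2), ∏ i ∈ range k, pr v (b i) c =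
      (∏ i ∈ range k, (1 + v (b i)) + ∏ i ∈ range k, (1 + -v (b i)) + ρ) / (ρ + 2) ^ k := by
  rw [Fin.sum_univ_succ, Fin.sum_univ_succ]
  simp only [pr, sg_ss, prod_div_distrib, prod_const, card_range]
  simp [sg]
  ring

def ex {ρ B : ℕ} (φ : Fin B → Fin (ρ + 2)) : ℕ → Fin (ρ + 2) :=
  fun b => if h : b < B then φ ⟨b, h⟩ else 0

noncomputable def wt {ρ B : ℕ} (v : ℕ → ℝ) (φ : Fin B → Fin (ρ + 2)) : ℝ :=
  ∏ b : Fin B, pr v b (φ b)

lemma wt_sum {ρ B : ℕ} (v : ℕ → ℝ) : ∑ φ : Fin B → Fin (ρ + 2), wt v φ = 1 := by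
  unfold wt
  rw [← Fintype.piFinset_univ, ← prod_univ_sum (fun _ => univ) (fun (b : Fin B) c => pr v b c)]
  simp [pr_sum]

lemma avg {ρ B : ℕ} {v : ℕ → ℝ} (hv : ∀ b, |v b| ≤ 1) (k : ℕ) (b : ℕ → ℕ) (hb : StrictMono b)
    (hB : ∀ i, i < k → b i < B) (b0 : ℕ) :
    ∑ φ : Fin B → Fin (ρ + 2), wt v φ * ind (∀ i, i < k → ex φ (b i) = ex φ b0) ≤
      ∑ c : Fin (ρ + 2), ∏ i ∈ range k, pr v (b i) c := by
  have h1 : ∀ φ : Fin B → Fin (ρ + 2), ind (∀ i, i < k → ex φ (b i) = ex φ b0) ≤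
      ∑ c : Fin (ρ + 2), ∏ x : Fin B, (if (x : ℕ) ∈ (range k).image b then ind (φ x = c) else 1) := by
    intro φ
    have hn : ∀ c : Fin (ρ + 2),
        0 ≤ ∏ x : Fin B, (if (x : ℕ) ∈ (range k).image b then ind (φ x = c) else 1) :=
      fun c => prod_nonneg fun x _ => by split_ifs; exacts [ind_nonneg _, zero_le_one]
    by_cases h : ∀ i, i < k → ex φ (b i) = ex φ b0
    · refine le_trans ?_ (single_le_sum (fun c _ => hn c) (mem_univ (ex φ b0)))
      rw [prod_eq_one]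
      · exact ind_le _
      · intro x _
        split_ifs with hx
        · obtain ⟨i, hi, hx⟩ := mem_image.1 hx
          have := h i (mem_range.1 hi)
          rw [hx, ex, dif_pos x.2] at this
          exact if_pos this
        · rfl
    · rw [show ind (∀ i, i < k → ex φ (b i) = ex φ b0) = 0 from if_neg h]
      exact sum_nonneg fun c _ => hn c
  have hw : ∀ φ : Fin B → Fin (ρ + 2), 0 ≤ wt v φ := fun φ => prod_nonneg fun x _ => pr_nonneg hv _ _
  refine (sum_le_sum fun φ _ => mul_le_mul_of_nonneg_left (h1 φ) (hw φ)).trans (le_of_eq ?_)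
  simp only [mul_sum]
  rw [sum_comm]
  refine sum_congr rfl fun c _ => ?_
  simp only [wt, ← prod_mul_distrib]
  rw [← Fintype.piFinset_univ, ← prod_univ_sum (fun _ => univ) (fun (x : Fin B) c' =>
    pr v x c' * if (x : ℕ) ∈ (range k).image b then ind (c' = c) else 1)]
  have : ∀ x : Fin B, ∑ c' : Fin (ρ + 2),
      (pr v x c' * if (x : ℕ) ∈ (range k).image b then ind (c' = c) else 1) =
      if (x : ℕ) ∈ (range k).image b then pr v x c else 1 := by
    intro x
    split_ifs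
    · rw [sum_eq_single c (fun b _ hb => by simp [ind, hb]) (by simp)]; simp [ind]
    · simp [pr_sum]
  simp only [this]
  rw [Fin.prod_univ_eq_prod_range (fun x => if x ∈ (range k).image b then pr v x c else 1),
    ← prod_filter, ← prod_image (f := fun x => pr v x c) (fun _ _ _ _ h => hb.injective h)]
  congr 1
  ext x
  simp only [mem_filter, mem_range, mem_image, and_iff_right_iff_imp]
  rintro ⟨i, hi, rfl⟩
  exact hB i hi

/-! counting pairs of positions -/

def T (s n : ℕ) : Finset (ℕ × ℕ) :=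
  (range n ×ˢ range n).filter (fun p => 1 ≤ p.2 ∧ p.1 + s * p.2 < n)

lemma mem_T {s n : ℕ} (hs : 1 ≤ s) {p : ℕ × ℕ} : p ∈ T s n ↔ 1 ≤ p.2 ∧ p.1 + s * p.2 < n := by
  simp only [T, mem_filter, mem_product, mem_range, and_iff_right_iff_imp]
  have := Nat.mul_le_mul_right p.2 hs
  omega

lemma T_card {s : ℕ} (hs : 1 ≤ s) (n : ℕ) : 2 * s * ((T s n).card : ℝ) ≤ n ^ 2 := by
  have h1 : (T s n).card ≤ ∑ a ∈ range n, (n - 1 - a) / s := by
    rw [card_eq_sum_card_fiberwise (f := Prod.fst) (t := range n)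
      (fun p hp => by have := (mem_T hs).1 hp; simp; omega)]
    refine sum_le_sum fun a _ => ?_
    rw [show (n - 1 - a) / s = (Icc 1 ((n - 1 - a) / s)).card by simp]
    refine card_le_card_of_injOn Prod.snd ?_ ?_
    · intro p hp
      simp only [coe_filter, Set.mem_ofPred_eq, mem_T hs] at hp
      simp only [coe_Icc, Set.mem_Icc]
      refine ⟨hp.1.1, (Nat.le_div_iff_mul_le hs).2 ?_⟩
      rw [mul_comm]; omega
    · intro p hp q hq h
      simp only [coe_filter, Set.mem_ofPred_eq] at hp hq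
      exact Prod.ext (hp.2.trans hq.2.symm) h
  have h2 : s * ∑ a ∈ range n, (n - 1 - a) / s ≤ ∑ a ∈ range n, a := by
    rw [mul_sum, ← sum_range_reflect (fun a => a) n]
    exact sum_le_sum fun a _ => Nat.mul_div_le _ _
  have h3 := sum_range_id_mul_two n
  have h4 : n * (n - 1) ≤ n ^ 2 := by rw [sq]; exact Nat.mul_le_mul_left _ (by omega)
  have h5 := Nat.mul_le_mul_left s h1
  have : 2 * s * (T s n).card ≤ n ^ 2 := by nlinarith
  exact_mod_cast this

def NN (s n L i j c c' : ℕ) : Finset (ℕ × ℕ) :=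
  (T s n).filter (fun p => (p.1 + i * p.2) / L = c ∧ (p.1 + j * p.2) / L = c')

lemma mem_NN {s n L i j c c' : ℕ} (hs : 1 ≤ s) (hL : 0 < L) {p : ℕ × ℕ} :
    p ∈ NN s n L i j c c' ↔ (1 ≤ p.2 ∧ p.1 + s * p.2 < n) ∧
      (c * L ≤ p.1 + i * p.2 ∧ p.1 + i * p.2 < c * L + L) ∧
      (c' * L ≤ p.1 + j * p.2 ∧ p.1 + j * p.2 < c' * L + L) := by
  have : ∀ x c, x / L = c ↔ c * L ≤ x ∧ x < c * L + L := by
    intro x c
    rw [Nat.div_eq_iff hL]; omega
  simp only [NN, mem_filter, mem_T hs, this]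

section cnt
variable {s n L c i m e κ : ℕ}

lemma cA (hL : 0 < L) (hm : 1 ≤ m) (hs : s = i + m + e) (hκ : m * κ = 2 * L)
    (H1 : 3 * s ≤ c) (H2 : (c + 3 * s + 3) * L ≤ n) :
    (NN s n L i (i + m) c c).card + (NN s n L i (i + m) (c + 2) (c + 2)).card ≤
      (NN s n L i (i + m) c (c + 2)).card := by
  have hs1 : 1 ≤ s := by omega
  have hκL : κ ≤ 2 * L := by nlinarith
  have hcL : 3 * (s * L) ≤ c * L := by nlinarith
  rw [← card_filter_add_card_filter_not (s := NN s n L i (i + m) c (c + 2)) (fun p => κ < p.2)]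
  refine Nat.add_le_add ?_ ?_
  · refine card_le_card_of_injOn (fun p : ℕ × ℕ => (p.1 - i * κ, p.2 + κ)) ?_ ?_
    · rintro ⟨a, d⟩ hp
      simp only [mem_coe, mem_filter, mem_NN hs1 hL, add_mul] at hp ⊢
      obtain ⟨⟨h1, h2⟩, ⟨h3, h4⟩, h5, h6⟩ := hp
      have hd : d ≤ L := by nlinarith
      have g1 : i * d ≤ s * L := Nat.mul_le_mul (by omega) hd
      have g2 : i * κ ≤ s * (2 * L) := Nat.mul_le_mul (by omega) hκL
      have g3 : (m + e) * (d + κ) ≤ s * (3 * L) := Nat.mul_le_mul (by omega) (by omega)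
      obtain ⟨a', rfl⟩ := Nat.exists_eq_add_of_le' (show i * κ ≤ a by nlinarith)
      rw [Nat.add_sub_cancel]
      refine ⟨⟨⟨by omega, ?_⟩, ⟨?_, ?_⟩, ?_, ?_⟩, by omega⟩ <;> nlinarith
    · rintro ⟨a, d⟩ hp ⟨a2, d2⟩ hq h
      simp only [mem_coe, mem_NN hs1 hL, add_mul] at hp hq
      simp only [Prod.mk.injEq] at h ⊢
      obtain ⟨⟨h1, h2⟩, ⟨h3, h4⟩, h5, h6⟩ := hp
      obtain ⟨⟨k1, k2⟩, ⟨k3, k4⟩, k5, k6⟩ := hq
      obtain rfl : d = d2 := by omega
      have hd : d ≤ L := by nlinarith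
      have g1 : i * d ≤ s * L := Nat.mul_le_mul (by omega) hd
      have g2 : i * κ ≤ 2 * (s * L) := by
        have := Nat.mul_le_mul (show i ≤ s by omega) hκL; nlinarith
      omega
  · refine card_le_card_of_injOn
      (fun p : ℕ × ℕ => (p.1 + (i + m) * p.2 - 2 * L - i * (κ - p.2), κ - p.2)) ?_ ?_
    · rintro ⟨a, d⟩ hp
      simp only [mem_coe, mem_filter, mem_NN hs1 hL, add_mul] at hp ⊢
      obtain ⟨⟨h1, h2⟩, ⟨h3, h4⟩, h5, h6⟩ := hp
      have hd : d < κ := by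
        by_contra hc
        have := Nat.mul_le_mul_left m (not_lt.1 hc)
        omega
      obtain ⟨d', rfl⟩ := Nat.exists_eq_add_of_le hd.le
      rw [Nat.add_sub_cancel_left]
      have g2 : i * d' ≤ 2 * (s * L) := by
        have := Nat.mul_le_mul (show i ≤ s by omega) (show d' ≤ 2 * L by omega); nlinarith
      have g3 : (m + e) * d' ≤ 2 * (s * L) := by
        have := Nat.mul_le_mul (show m + e ≤ s by omega) (show d' ≤ 2 * L by omega); nlinarith
      have g4 : s * d' = i * d' + (m + e) * d' := by rw [hs]; ring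
      have g5 : c * L + 3 * (s * L) + 3 * L ≤ n := by nlinarith
      rw [mul_add] at hκ
      omega
    · rintro ⟨a, d⟩ hp ⟨a2, d2⟩ hq h
      simp only [mem_coe, mem_NN hs1 hL, add_mul] at hp hq
      simp only [Prod.mk.injEq, add_mul] at h ⊢
      obtain ⟨⟨h1, h2⟩, ⟨h3, h4⟩, h5, h6⟩ := hp
      obtain ⟨⟨k1, k2⟩, ⟨k3, k4⟩, k5, k6⟩ := hq
      have hd : d < κ := by
        by_contra hc
        have := Nat.mul_le_mul_left m (not_lt.1 hc)
        omega
      have hd2 : d2 < κ := by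
        by_contra hc
        have := Nat.mul_le_mul_left m (not_lt.1 hc)
        omega
      obtain rfl : d = d2 := by omega
      have g2 : i * (κ - d) ≤ 2 * (s * L) := by
        have := Nat.mul_le_mul (show i ≤ s by omega) (show κ - d ≤ 2 * L by omega); nlinarith
      omega

lemma cB (hL : 0 < L) (hm : 1 ≤ m) (hs : s = i + m + e) (hκ : m * κ = 2 * L) (H1 : 1 ≤ c) :
    (NN s n L i (i + m) 0 (c + 2)).card ≤ (NN s n L i (i + m) 0 c).card := by
  have hs1 : 1 ≤ s := by omega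
  have hcL : L ≤ c * L := by nlinarith
  have hd : ∀ a d, (a, d) ∈ NN s n L i (i + m) 0 (c + 2) → κ < d := by
    intro a d hp
    simp only [mem_NN hs1 hL, add_mul] at hp
    by_contra hc
    have := Nat.mul_le_mul_left m (not_lt.1 hc)
    omega
  refine card_le_card_of_injOn (fun p => (p.1 + i * κ, p.2 - κ)) ?_ ?_
  · rintro ⟨a, d⟩ hp
    obtain ⟨d', rfl⟩ := Nat.exists_eq_add_of_le (hd a d hp).le
    have := hd _ _ hp
    simp only [mem_coe, mem_NN hs1 hL, add_mul, mul_add, Nat.add_sub_cancel_left] at hp ⊢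
    have : i * κ ≤ s * κ := Nat.mul_le_mul_right _ (by omega)
    omega
  · rintro ⟨a, d⟩ hp ⟨a2, d2⟩ hq h
    have := hd _ _ hp
    have := hd _ _ hq
    simp only [Prod.mk.injEq] at h ⊢
    omega

lemma cC (hL : 0 < L) (hm : 1 ≤ m) (H4 : (m + 1) * ((c + 1) * L) = m * n) :
    NN (m + 1) n L 0 m 0 (c + 2) = ∅ := by
  ext ⟨a, d⟩
  simp only [mem_NN (show 1 ≤ m + 1 by omega) hL, notMem_empty, iff_false]
  rintro ⟨⟨h1, h2⟩, ⟨h3, h4⟩, h5, h6⟩
  have a1 := Nat.mul_le_mul_left (m + 1) h5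
  have a2 := Nat.mul_le_mul_left m h2.le
  nlinarith

lemma cD {D l : ℕ} (hl : 0 < l) (hm : 1 ≤ m) (hD : 1 ≤ D) (hc : 1 ≤ c) (hL : L = 2 * (m * D) * l)
    (H4 : (m + 1) * ((c + 1) * L) = m * n) :
    l ^ 2 ≤ (NN (m + 1) n L 0 m 0 c).card := by
  have hL0 : 0 < L := by rw [hL]; positivity
  rw [show l ^ 2 = (range l ×ˢ range l).card by simp [sq]]
  refine card_le_card_of_injOn (fun p => (p.1, c * (2 * D * l) + p.2)) ?_ ?_
  · rintro ⟨x, z⟩ hp
    simp only [coe_product, coe_range, Set.mem_prod, Set.mem_Iio] at hp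
    simp only [mem_coe, mem_NN (show 1 ≤ m + 1 by omega) hL0]
    have e1 : m * (c * (2 * D * l) + z) = c * L + m * z := by rw [hL]; ring
    have e2 : m * z ≤ m * l := Nat.mul_le_mul_left _ hp.2.le
    have e3 : l ≤ m * l := by nlinarith
    have e4 : 2 * (m * l) ≤ L := by rw [hL]; nlinarith [Nat.mul_le_mul_left (m * l) hD]
    have e5 : 0 < c * (2 * D * l) := by positivity
    have e6 : x + m * (c * (2 * D * l) + z) < c * L + L := by omega
    refine ⟨⟨by omega, ?_⟩, ⟨by omega, by omega⟩, by omega, e6⟩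
    generalize c * (2 * D * l) + z = d at e6
    by_contra hh
    have a1 := Nat.mul_le_mul_left m (not_lt.1 hh)
    have a2 := Nat.mul_le_mul_left (m + 1) (Nat.succ_le_of_lt e6)
    simp only [Nat.succ_eq_add_one] at a2
    nlinarith
  · rintro ⟨a, d⟩ _ ⟨a2, d2⟩ _ h
    simp only [Prod.mk.injEq] at h ⊢
    omega

lemma cE (hL : 0 < L) (hm : 1 ≤ m) (hs : 1 ≤ s) : (NN s n L i (i + m) 0 0).card ≤ L ^ 2 := by
  rw [show L ^ 2 = (range L ×ˢ range L).card by simp [sq]]
  refine card_le_card ?_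
  rintro ⟨a, d⟩ hp
  simp only [mem_NN hs hL, add_mul, mem_product, mem_range] at hp ⊢
  have := Nat.mul_le_mul_right d hm
  omega

lemma cF (hL : 0 < L) (hs : 1 ≤ s) : NN s n L i (i + m) (c + 2) 0 = ∅ := by
  ext ⟨a, d⟩
  simp only [mem_NN hs hL, add_mul, notMem_empty, iff_false]
  omega

end cnt

noncomputable def gam (c : ℕ) (t : ℝ) (z : ℕ) : ℝ := ind (z = c) - ind (z = c + 2) - t * ind (z = 0)

lemma gam_abs {c : ℕ} (hc : 1 ≤ c) {t : ℝ} (h0 : 0 ≤ t) (h1 : t ≤ 1) (z : ℕ) : |gam c t z| ≤ 1 := by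
  unfold gam ind
  rw [abs_le]
  split_ifs <;> first | omega | (constructor <;> linarith)

lemma sum_ind (s n L i j c c' : ℕ) :
    ∑ p ∈ T s n, ind ((p.1 + i * p.2) / L = c) * ind ((p.1 + j * p.2) / L = c') =
      (NN s n L i j c c').card := by
  rw [NN, card_filter]
  push_cast
  refine sum_congr rfl fun p _ => ?_
  unfold ind
  split_ifs <;> simp_all

lemma sum_gam (s n L i j c : ℕ) (t : ℝ) :
    ∑ p ∈ T s n, gam c t ((p.1 + i * p.2) / L) * gam c t ((p.1 + j * p.2) / L) =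
      (NN s n L i j c c).card - (NN s n L i j c (c + 2)).card - t * (NN s n L i j c 0).card
      - (NN s n L i j (c + 2) c).card + (NN s n L i j (c + 2) (c + 2)).card
      + t * (NN s n L i j (c + 2) 0).card - t * (NN s n L i j 0 c).card
      + t * (NN s n L i j 0 (c + 2)).card + t ^ 2 * (NN s n L i j 0 0).card := by
  simp only [← sum_ind, mul_sum, ← sum_sub_distrib, ← sum_add_distrib]
  refine sum_congr rfl fun p _ => ?_
  unfold gam; ring

lemma Q_bound {m l n L c : ℕ} (hm : 1 ≤ m) (hl : 0 < l) (hL : L = 2 * (m + 1).factorial * l)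
    (H1 : 3 * (m + 1) ≤ c) (H2 : (c + 3 * (m + 1) + 3) * L ≤ n)
    (H4 : (m + 1) * ((c + 1) * L) = m * n) {t : ℝ} (ht : 0 ≤ t) :
    ∑ p ∈ T (m + 1) n, e2 (fun i => gam c t ((p.1 + i * p.2) / L)) (m + 2) ≤
      -(t * l ^ 2) + (m + 2) ^ 2 * (t ^ 2 * L ^ 2) := by
  have hL0 : 0 < L := by rw [hL]; positivity
  let W : ℕ → ℕ → ℝ := fun i j => t ^ 2 * L ^ 2 -
    ∑ p ∈ T (m + 1) n, gam c t ((p.1 + i * p.2) / L) * gam c t ((p.1 + j * p.2) / L)
  have hW : ∀ i j, i < j → j < m + 2 → t * ((NN (m + 1) n L i j 0 c).card -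
      (NN (m + 1) n L i j 0 (c + 2)).card) ≤ W i j ∧ ((NN (m + 1) n L i j 0 (c + 2)).card : ℝ) ≤
      (NN (m + 1) n L i j 0 c).card := by
    intro i j hij hj
    obtain ⟨μ, rfl⟩ := Nat.exists_eq_add_of_le hij.le
    obtain ⟨e, he⟩ := Nat.exists_eq_add_of_le (show i + μ ≤ m + 1 by omega)
    obtain ⟨D, hD⟩ := Nat.dvd_factorial (show 0 < μ by omega) (show μ ≤ m + 1 by omega)
    have hκ : μ * (4 * D * l) = 2 * L := by rw [hL, hD]; ring
    have a1 := cA hL0 (by omega) he hκ H1 H2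
    have a2 := cB (n := n) (c := c) hL0 (by omega) he hκ (by omega)
    have a3 := cE (s := m + 1) (n := n) (i := i) hL0 (show 1 ≤ μ by omega) (by omega)
    have a4 := cF (s := m + 1) (n := n) (i := i) (m := μ) (c := c) hL0 (by omega)
    refine ⟨?_, by exact_mod_cast a2⟩
    simp only [W, sum_gam, a4, card_empty, Nat.cast_zero]
    have a1' : ((NN (m + 1) n L i (i + μ) c c).card : ℝ) +
      (NN (m + 1) n L i (i + μ) (c + 2) (c + 2)).card ≤
      (NN (m + 1) n L i (i + μ) c (c + 2)).card := by exact_mod_cast a1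
    have a3' : ((NN (m + 1) n L i (i + μ) 0 0).card : ℝ) ≤ L ^ 2 := by exact_mod_cast a3
    have b1 := mul_le_mul_of_nonneg_left a3' (sq_nonneg t)
    have b2 : 0 ≤ t * (NN (m + 1) n L i (i + μ) c 0).card := by positivity
    have b3 : (0 : ℝ) ≤ (NN (m + 1) n L i (i + μ) (c + 2) c).card := by positivity
    nlinarith
  have hW0 : ∀ i j, i < j → j < m + 2 → 0 ≤ W i j := fun i j h1 h2 =>
    le_trans (mul_nonneg ht (by linarith [(hW i j h1 h2).2])) (hW i j h1 h2).1
  have hW1 : t * l ^ 2 ≤ W 0 m := by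
    refine le_trans ?_ (hW 0 m (by omega) (by omega)).1
    obtain ⟨D, hD⟩ := Nat.dvd_factorial (show 0 < m by omega) (show m ≤ m + 1 by omega)
    have hD1 : 1 ≤ D := by
      by_contra h
      have : D = 0 := by omega
      rw [this, mul_zero] at hD
      exact Nat.factorial_ne_zero _ hD
    have := cD hl hm hD1 (by omega) (by rw [hL, hD]) H4
    rw [cC hL0 hm H4]
    simp only [card_empty, Nat.cast_zero, sub_zero]
    gcongr
    exact_mod_cast this
  have h1 : W 0 m ≤ ∑ j ∈ range (m + 2), ∑ i ∈ range j, W i j := by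
    refine le_trans ?_ (single_le_sum (f := fun j => ∑ i ∈ range j, W i j)
      (fun j hj => sum_nonneg fun i hi => hW0 i j (mem_range.1 hi) (mem_range.1 hj))
      (mem_range.2 (show m < m + 2 by omega)))
    exact single_le_sum (f := fun i => W i m)
      (fun i hi => hW0 i m (mem_range.1 hi) (by omega)) (mem_range.2 (show 0 < m by omega))
  have h2 : ∑ j ∈ range (m + 2), ∑ _i ∈ range j, t ^ 2 * (L : ℝ) ^ 2 ≤
      (m + 2) ^ 2 * (t ^ 2 * L ^ 2) := by
    calc _ ≤ ∑ _j ∈ range (m + 2), ((m : ℝ) + 2) * (t ^ 2 * L ^ 2) := by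
          refine sum_le_sum fun j hj => ?_
          rw [sum_const, card_range, nsmul_eq_mul]
          have : (j : ℝ) ≤ m + 2 := by exact_mod_cast (mem_range.1 hj).le
          gcongr
      _ = _ := by simp; ring
  have h3 : ∑ p ∈ T (m + 1) n, e2 (fun i => gam c t ((p.1 + i * p.2) / L)) (m + 2) =
      ∑ j ∈ range (m + 2), ∑ _i ∈ range j, t ^ 2 * (L : ℝ) ^ 2 -
        ∑ j ∈ range (m + 2), ∑ i ∈ range j, W i j := by
    simp only [← sum_sub_distrib, W, sub_sub_cancel, e2]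
    rw [sum_comm]
    exact sum_congr rfl fun j _ => sum_comm
  linarith

lemma avg_G {ρ s B l : ℕ} (hl : 0 < l) {v : ℕ → ℝ} (hv : ∀ b, |v b| ≤ 1) :
    ∑ φ : Fin B → Fin (ρ + 2), wt v φ * G s B (ex φ) (B * l) ≤ (B * l : ℕ) * l +
      ∑ p ∈ T s (B * l), ∑ c : Fin (ρ + 2), ∏ i ∈ range (s + 1), pr v ((p.1 + i * p.2) / l) c := by
  have hw : ∀ φ : Fin B → Fin (ρ + 2), 0 ≤ wt v φ := fun φ => prod_nonneg fun x _ => pr_nonneg hv _ _
  have h1 : ∑ _a ∈ range (B * l), ∑ d ∈ range (B * l), ind (d < l) ≤ (B * l : ℕ) * l := by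
    rw [sum_const, card_range, nsmul_eq_mul]
    gcongr
    have e : ∑ d ∈ range (B * l), ind (d < l) =
        (((range (B * l)).filter (fun d => d < l)).card : ℝ) := by
      rw [card_filter]; push_cast
      exact sum_congr rfl fun d _ => by unfold ind; split_ifs <;> rfl
    have : ((range (B * l)).filter (fun d => d < l)).card ≤ (range l).card :=
      card_le_card fun x hx => mem_range.2 (mem_filter.1 hx).2
    rw [card_range] at this
    rw [e]
    exact_mod_cast this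
  refine le_trans ?_ (add_le_add_left h1 _)
  rw [T, sum_filter, sum_product]
  simp only [G, mul_sum, ← sum_add_distrib]
  rw [sum_comm]
  refine sum_le_sum fun a ha => ?_
  rw [sum_comm]
  refine sum_le_sum fun d _ => ?_
  have hB : 0 < B := by
    rcases Nat.eq_zero_or_pos B with rfl | h
    · simp at ha
    · exact h
  have hpp : 0 ≤ ∑ c : Fin (ρ + 2), ∏ i ∈ range (s + 1), pr v ((a + i * d) / l) c :=
    sum_nonneg fun c _ => prod_nonneg fun _ _ => pr_nonneg hv _ _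
  split_ifs with hval
  · by_cases hd : d < l
    · have : ∑ φ : Fin B → Fin (ρ + 2), wt v φ * ind (P s B (ex φ) (B * l) a d) ≤
          ∑ φ : Fin B → Fin (ρ + 2), wt v φ :=
        sum_le_sum fun φ _ => mul_le_of_le_one_right (hw φ) (ind_le _)
      rw [wt_sum] at this
      rw [show ind (d < l) = 1 from if_pos hd]
      linarith
    · have hb : StrictMono (fun i => (a + i * d) / l) := by
        refine strictMono_nat_of_lt_succ fun i => ?_
        have : (a + i * d + l) / l ≤ (a + (i + 1) * d) / l :=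
          Nat.div_le_div_right (by rw [add_mul]; omega)
        rw [Nat.add_div_right _ hl] at this
        exact this
      have := avg (ρ := ρ) (B := B) hv (s + 1) (fun i => (a + i * d) / l) hb (fun i hi => by
        rw [Nat.div_lt_iff_lt_mul hl]
        have := Nat.mul_le_mul_right d (Nat.le_of_lt_succ hi)
        omega) (a / l)
      refine le_trans (sum_le_sum fun φ _ => mul_le_mul_of_nonneg_left ?_ (hw φ))
        (this.trans (le_add_of_nonneg_left (ind_nonneg _)))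
      by_cases hP : P s B (ex φ) (B * l) a d
      · refine (ind_le _).trans (le_of_eq (if_pos fun i hi => ?_).symm)
        have := hP.2.2 i (Nat.le_of_lt_succ hi)
        rwa [Nat.mul_div_mul_left _ _ hB, Nat.mul_div_mul_left _ _ hB] at this
      · rw [show ind (P s B (ex φ) (B * l) a d) = 0 from if_neg hP]; exact ind_nonneg _
  · have : ∀ φ : Fin B → Fin (ρ + 2), ind (P s B (ex φ) (B * l) a d) = 0 :=
      fun φ => if_neg fun hP => hval ⟨hP.1, hP.2.1⟩
    simp [this, ind_nonneg]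

lemma main (m ρ : ℕ) (hm : 1 ≤ m) : ∃ η : ℝ, 0 < η ∧ ∃ N F : ℕ, 0 < N ∧ 0 < F ∧
    ∀ B' l' : ℕ, 0 < B' → 0 < l' → ∃ ψ : ℕ → Fin (ρ + 2),
      G (m + 1) (N * B') ψ (N * B' * (2 * F * l')) ≤
        (1 / (2 * (m + 1) * (ρ + 2) ^ (m + 1)) - η) * ((N * B' * (2 * F * l') : ℕ) : ℝ) ^ 2 +
          (N * B' * (2 * F * l') : ℕ) * (2 * F * l' : ℕ) := by
  obtain ⟨c, hc⟩ : ∃ c, c + 1 = m * (3 * m + 5) := ⟨m * (3 * m + 5) - 1, by
    have : 1 ≤ m * (3 * m + 5) := Nat.mul_pos hm (by omega)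
    omega⟩
  set N := (m + 1) * (3 * m + 5) with hN
  set F := (m + 1).factorial with hF
  have hF0 : 0 < F := Nat.factorial_pos _
  have hN0 : 0 < N := by positivity
  have hF1 : (1 : ℝ) ≤ F := by exact_mod_cast hF0
  set t : ℝ := 1 / (8 * (m + 2) ^ 2 * F ^ 2) with ht
  have ht0 : 0 < t := by positivity
  have ht1 : t ≤ 1 := by
    rw [ht, div_le_one (by positivity)]
    have : (1 : ℝ) ≤ (m + 2) ^ 2 := by nlinarith [Nat.cast_nonneg (α := ℝ) m]
    have : (1 : ℝ) ≤ F ^ 2 := by nlinarith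
    nlinarith
  set η0 : ℝ := t / (2 * (2 * N * F) ^ 2) with hη0
  have hη : 0 < η0 := by positivity
  set K := KK (m + 2) with hK
  have hK1 : 1 ≤ K := KK_ge _
  set ε := min 1 (η0 / K) with hε
  have hε0 : 0 < ε := lt_min one_pos (by positivity)
  have hε1 : ε ≤ 1 := min_le_left _ _
  have hε2 : K * ε ≤ η0 := by
    have := min_le_right 1 (η0 / K)
    rw [← hε, le_div_iff₀ (by positivity)] at this
    linarith
  refine ⟨ε ^ 2 * η0 / (ρ + 2) ^ (m + 2), by positivity, N, F, hN0, hF0, fun B' l' hB hl => ?_⟩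
  set n := N * B' * (2 * F * l') with hn
  let v : ℕ → ℝ := fun b => ε * gam c t (b / B')
  have hc1 : 3 * (m + 1) ≤ c := by nlinarith
  have hv : ∀ b, |v b| ≤ ε := fun b => by
    simp only [v, abs_mul, abs_of_pos hε0]
    exact mul_le_of_le_one_right hε0.le (gam_abs (by omega) ht0.le ht1 _)
  have hv1 : ∀ b, |v b| ≤ 1 := fun b => (hv b).trans hε1
  have h1 := avg_G (ρ := ρ) (s := m + 1) (B := N * B') (l := 2 * F * l') (by positivity) hv1
  have hQ := Q_bound (m := m) (l := l' * B') (n := n) (L := 2 * F * l' * B') (c := c) hm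
    (by positivity) (by rw [hF]; ring) hc1
    (by rw [hn, hN, show c + 3 * (m + 1) + 3 = (c + 1) + (3 * m + 5) by ring, hc]
        apply le_of_eq; ring) (by rw [hn, hN, hc]; ring) ht0.le
  have hQ2 : -(t * ((l' * B' : ℕ) : ℝ) ^ 2) + (m + 2) ^ 2 * (t ^ 2 * ((2 * F * l' * B' : ℕ) : ℝ) ^ 2)
      = -(η0 * (n : ℝ) ^ 2) := by
    rw [hη0, hn, ht]; push_cast
    have : (0 : ℝ) < N := by exact_mod_cast hN0
    field_simp; ring
  rw [hQ2] at hQ
  have hT := T_card (show 1 ≤ m + 1 by omega) n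
  have h2 : ∑ p ∈ T (m + 1) n, ∑ c : Fin (ρ + 2),
      ∏ i ∈ range (m + 1 + 1), pr v ((p.1 + i * p.2) / (2 * F * l')) c ≤
      ∑ p ∈ T (m + 1) n, (ρ + 2 + 2 * (K * ε ^ 3) + 2 * ε ^ 2 *
        e2 (fun i => gam c t ((p.1 + i * p.2) / (2 * F * l' * B'))) (m + 2)) / (ρ + 2) ^ (m + 2) := by
    refine sum_le_sum fun p _ => ?_
    rw [pr_prod v (fun i => (p.1 + i * p.2) / (2 * F * l'))]
    have := pm hε0.le hε1 (fun i => hv ((p.1 + i * p.2) / (2 * F * l'))) (m + 2)
    have e : e2 (fun i => v ((p.1 + i * p.2) / (2 * F * l'))) (m + 2) = ε ^ 2 *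
        e2 (fun i => gam c t ((p.1 + i * p.2) / (2 * F * l' * B'))) (m + 2) := by
      simp only [e2, v, mul_sum, Nat.div_div_eq_div_mul]
      exact sum_congr rfl fun _ _ => sum_congr rfl fun _ _ => by ring
    rw [e] at this
    refine div_le_div_of_nonneg_right ?_ (by positivity)
    rw [show m + 1 + 1 = m + 2 from rfl]
    linarith
  rw [← Finset.sum_div, sum_add_distrib, ← mul_sum, sum_const, nsmul_eq_mul] at h2
  obtain ⟨φ, -, hφ⟩ := exists_min_image (univ : Finset (Fin (N * B') → Fin (ρ + 2)))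
    (fun φ => G (m + 1) (N * B') (ex φ) n) univ_nonempty
  refine ⟨ex φ, ?_⟩
  have h3 : G (m + 1) (N * B') (ex φ) n ≤
      ∑ φ : Fin (N * B') → Fin (ρ + 2), wt v φ * G (m + 1) (N * B') (ex φ) n := by
    calc _ = ∑ φ' : Fin (N * B') → Fin (ρ + 2), wt v φ' * G (m + 1) (N * B') (ex φ) n := by
          rw [← sum_mul, wt_sum, one_mul]
      _ ≤ _ := sum_le_sum fun φ' _ => mul_le_mul_of_nonneg_left (hφ φ' (mem_univ _))
          (prod_nonneg fun x _ => pr_nonneg hv1 _ _)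
  refine (h3.trans (h1.trans (add_le_add_right h2 _))).trans ?_
  rw [add_comm]
  gcongr
  rw [div_le_iff₀ (by positivity)]
  have e : (1 / (2 * ((m : ℝ) + 1) * (ρ + 2) ^ (m + 1)) - ε ^ 2 * η0 / (ρ + 2) ^ (m + 2)) *
      (n : ℝ) ^ 2 * (ρ + 2) ^ (m + 2) =
      (ρ + 2) * (n ^ 2 / (2 * (m + 1))) - ε ^ 2 * η0 * n ^ 2 := by
    field_simp; ring
  rw [e]
  push_cast at hT
  set τ : ℝ := ((T (m + 1) n).card : ℝ)
  have hτ : 0 ≤ τ := Nat.cast_nonneg _
  have a1 : τ ≤ n ^ 2 / (2 * (m + 1)) := by rw [le_div_iff₀ (by positivity)]; linarith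
  have a2 : 2 * τ ≤ n ^ 2 := by nlinarith [mul_nonneg (Nat.cast_nonneg (α := ℝ) m) hτ]
  have a3 := mul_le_mul_of_nonneg_left a1 (show (0 : ℝ) ≤ ρ + 2 by positivity)
  have a4 := mul_le_mul_of_nonneg_left hQ (show (0 : ℝ) ≤ 2 * ε ^ 2 by positivity)
  have a5 := mul_le_mul hε2 a2 (by positivity) hη.le
  have a6 := mul_le_mul_of_nonneg_left a5 (sq_nonneg ε)
  nlinarith

/-- For every k ≥ 3 and r ≥ 2 there are δ below the random rate, a constant C and colourings
χ n of [n] with δ n^2 + O(n) monochromatic k-term progressions. -/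
theorem result (k r : ℕ) (hk : 3 ≤ k) (hr : 2 ≤ r) :
    ∃ δ : ℝ, δ < 1 / (2 * ((k : ℝ) - 1) * (r : ℝ) ^ (k - 1)) ∧
      ∃ (C : ℝ) (χ : ℕ → ℕ → Fin r), ∀ n : ℕ, 1 ≤ n →
        |(M k n (χ n) : ℝ) - δ * (n : ℝ) ^ 2| ≤ C * n := by
  obtain ⟨m, rfl⟩ : ∃ m, k = m + 2 := ⟨k - 2, by omega⟩
  obtain ⟨ρ, rfl⟩ : ∃ ρ, r = ρ + 2 := ⟨r - 2, by omega⟩
  obtain ⟨η, hη, N, F, hN, hF, h⟩ := main m ρ (by omega)
  obtain ⟨B', hB'⟩ := exists_nat_gt (3 / η)
  have hB0 : 0 < B' := by
    have : (0 : ℝ) < B' := lt_trans (by positivity) hB'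
    exact_mod_cast this
  have hC : 0 < C0 (m + 1) (N * B') := by unfold C0; positivity
  obtain ⟨l', hl'⟩ := exists_nat_gt (3 * C0 (m + 1) (N * B') / η)
  have hl0 : 0 < l' := by
    have : (0 : ℝ) < l' := lt_trans (by positivity) hl'
    exact_mod_cast this
  obtain ⟨ψ, hψ⟩ := h B' l' hB0 hl0
  obtain ⟨δ, hδ⟩ := G_lim (m + 1) (N * B') ψ (by positivity)
  refine ⟨δ, ?_, C0 (m + 1) (N * B'), fun n x => ψ (N * B' * (x - 1) / n), fun n hn => ?_⟩
  · have h1 := (abs_le.1 (hδ (N * B' * (2 * F * l')) (by positivity))).1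
    have e : ((m + 2 : ℕ) : ℝ) - 1 = m + 1 := by push_cast; ring
    rw [e, show m + 2 - 1 = m + 1 by omega]
    push_cast
    set n := N * B' * (2 * F * l') with hn
    have hn0 : (0 : ℝ) < n := by exact_mod_cast (show 0 < n by positivity)
    have b1 : (B' : ℝ) * (2 * F * l' : ℕ) ≤ n := by
      have : B' * (2 * F * l') ≤ n := Nat.mul_le_mul_right _ (Nat.le_mul_of_pos_left _ hN)
      exact_mod_cast this
    have b2 : (l' : ℝ) ≤ n := by
      have : l' ≤ n := by
        rw [hn, ← mul_assoc]; exact Nat.le_mul_of_pos_left _ (by positivity)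
      exact_mod_cast this
    rw [div_lt_iff₀ hη] at hB' hl'
    have b3 : (3 : ℝ) * (2 * F * l' : ℕ) ≤ η * n := by
      have : (0 : ℝ) ≤ (2 * F * l' : ℕ) := Nat.cast_nonneg _
      nlinarith
    have b4 : 3 * C0 (m + 1) (N * B') ≤ η * n := by nlinarith
    refine lt_of_mul_lt_mul_right ?_ (sq_nonneg (n : ℝ))
    have b5 := mul_le_mul_of_nonneg_right b3 hn0.le
    have b6 := mul_le_mul_of_nonneg_right b4 hn0.le
    have b7 : 0 < η * n ^ 2 := by positivity
    nlinarith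
  · rw [show m + 2 = m + 1 + 1 from rfl, M_eq (m + 1) (N * B') ψ (by omega)]
    exact hδ n hn

end Pool.Agent.Results.MP_6bff71_co.Beat
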